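import Pool.Agent.W745.Fib.Stm

/-!
FM-DU (helper237), project FM (helper745): duality of band edges.
-/

set_option autoImplicit false

namespace Pool.Agent.W237.FM

open Pool.Agent.W745.Fib Pool.Agent.W811.Stu

theorem surf (lam g : ℝ) (k : ℕ) :
    tr lam (k + 2) g ^ 2 + tr lam (k + 1) g ^ 2 + tr lam k g ^ 2
      - 2 * tr lam (k + 2) g * tr lam (k + 1) g * tr lam k g = 1 + (lam / 2) ^ 2 := by
  have h := onS lam g k
  unfold OnS at h
  simp only at h
  linear_combination h

theorem tangency (lam g : ℝ) (k : ℕ) :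
    dE lam k g * (tr lam k g - tr lam (k + 2) g * tr lam (k + 1) g)
      + dE lam (k + 1) g * (tr lam (k + 1) g - tr lam (k + 2) g * tr lam k g)
      + dE lam (k + 2) g * (tr lam (k + 2) g - tr lam (k + 1) g * tr lam k g) = 0 := by
  induction k with
  | zero =>
    simp only [Nat.zero_add, dE_zero, dE_one, dE_two, tr_zero, tr_one, tr_two]
    ring
  | succ k ih =>
    rw [show k + 1 + 2 = k + 3 by ring, show k + 1 + 1 = k + 2 by ring, dE_rec, tr_rec]
    linear_combination ih

theorem dual_tr (lam g : ℝ) (n : ℕ) (hn : 1 ≤ n) (h1 : tr lam n g = 1) :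
    ∀ j, j ≤ n → tr (dl lam n g) j (dt lam n g) = tr lam (n - j) g := by
  have key : ∀ j, (j ≤ n → tr (dl lam n g) j (dt lam n g) = tr lam (n - j) g) := by
    apply ind3
    · intro _
      rw [tr_zero, Nat.sub_zero, h1]
    · intro _
      rw [tr_one]
      unfold dt
      ring
    · intro h2
      rw [tr_two]
      unfold dt dl
      obtain ⟨k, rfl⟩ := Nat.exists_eq_add_of_le h2
      rw [show 2 + k - 1 = k + 1 by omega, show 2 + k - 2 = k by omega,
        show 2 + k + 1 = k + 3 by omega, tr_rec]
      rw [show 2 + k = k + 2 by omega] at h1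
      rw [h1]
      ring
    · intro j i0 i1 i2 h3
      rw [tr_rec, i0 (by omega), i1 (by omega), i2 (by omega)]
      obtain ⟨k, rfl⟩ := Nat.exists_eq_add_of_le h3
      rw [show j + 3 + k - (j + 2) = k + 1 by omega, show j + 3 + k - (j + 1) = k + 2 by omega,
        show j + 3 + k - j = k + 3 by omega, show j + 3 + k - (j + 3) = k by omega, tr_rec]
      ring
  exact key

theorem dual_dE (lam g : ℝ) (n : ℕ) (hn : 1 ≤ n) (h1 : tr lam n g = 1)
    (hl : dl lam n g ≠ 0) : ∀ j k : ℕ, k + (j + 2) = n →
    (dE lam k g * dE (dl lam n g) (j + 1) (dt lam n g)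
        - dE lam (k + 1) g * dE (dl lam n g) (j + 2) (dt lam n g)
      = (-1) ^ (j + 2) * (dE lam n g / dl lam n g) *
        (tr lam (k + 2) g - tr lam (k + 1) g * tr lam k g)) ∧
    (dE lam (k + 2) g * dE (dl lam n g) (j + 2) (dt lam n g)
        - dE lam k g * dE (dl lam n g) j (dt lam n g)
      = (-1) ^ (j + 2) * (dE lam n g / dl lam n g) *
        (tr lam (k + 1) g - tr lam (k + 2) g * tr lam k g)) ∧
    (dE lam (k + 1) g * dE (dl lam n g) j (dt lam n g)
        - dE lam (k + 2) g * dE (dl lam n g) (j + 1) (dt lam n g)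
      = (-1) ^ (j + 2) * (dE lam n g / dl lam n g) *
        (tr lam k g - tr lam (k + 2) g * tr lam (k + 1) g)) := by
  intro j
  induction j with
  | zero =>
    intro k hk
    have hk' : n = k + 2 := by omega
    subst hk'
    have hdl : dl lam (k + 2) g = 2 * (tr lam (k + 1) g - tr lam k g) := by
      unfold dl
      rw [show k + 2 + 1 = k + 3 by ring, show k + 2 - 1 = k + 1 by omega, tr_rec, h1]
      ring
    have ht := tangency lam g k
    rw [h1] at ht ⊢
    simp only [Nat.zero_add, dE_one, dE_two, dE_zero]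
    have hy : tr lam (k + 1) g = dl lam (k + 2) g / 2 + tr lam k g := by
      rw [hdl]; ring
    refine ⟨?_, ?_, ?_⟩
    · field_simp
      rw [hdl]
      linear_combination (-2) * ht
    · field_simp
      rw [hdl]
      ring
    · field_simp
      rw [hdl]
      ring
  | succ j ih =>
    intro k hk
    obtain ⟨i1, i2, i3⟩ := ih (k + 1) (by omega)
    have e1 : tr (dl lam n g) (j + 2) (dt lam n g) = tr lam (k + 1) g := by
      rw [dual_tr lam g n hn h1 (j + 2) (by omega), show n - (j + 2) = k + 1 by omega]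
    have e2 : tr (dl lam n g) (j + 1) (dt lam n g) = tr lam (k + 2) g := by
      rw [dual_tr lam g n hn h1 (j + 1) (by omega), show n - (j + 1) = k + 2 by omega]
    have r1 := dE_rec lam k g
    have r2 := dE_rec (dl lam n g) j (dt lam n g)
    rw [e1, e2] at r2
    have r3 := tr_rec lam k g
    rw [show k + 1 + 1 = k + 2 by ring, show k + 1 + 2 = k + 3 by ring] at i1 i2 i3
    rw [show j + 1 + 1 = j + 2 by ring, show j + 1 + 2 = j + 3 by ring]
    set a0 := dE lam k g
    set a1 := dE lam (k + 1) g
    set a2 := dE lam (k + 2) g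
    set a3 := dE lam (k + 3) g
    set b3 := dE (dl lam n g) (j + 3) (dt lam n g)
    set b2 := dE (dl lam n g) (j + 2) (dt lam n g)
    set b1 := dE (dl lam n g) (j + 1) (dt lam n g)
    set b0 := dE (dl lam n g) j (dt lam n g)
    set s := tr lam k g
    set p := tr lam (k + 1) g
    set q := tr lam (k + 2) g
    set r := tr lam (k + 3) g
    set mu := dE lam n g / dl lam n g
    have hs : s = 2 * q * p - r := by linear_combination r3
    have ha : a0 = 2 * a2 * p + 2 * q * a1 - a3 := by linear_combination r1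
    have hpow : ((-1 : ℝ)) ^ (j + 3) = -((-1) ^ (j + 2)) := by
      rw [show j + 3 = j + 2 + 1 by ring, pow_succ]
      ring
    rw [hpow]
    set e : ℝ := (-1) ^ (j + 2)
    refine ⟨?_, ?_, ?_⟩
    · rw [r2, ha, hs]
      linear_combination (-2 * p) * i1 - i2
    · rw [r2, ha, hs]
      linear_combination (-2 * q) * i1 - i3
    · rw [hs]
      linear_combination i1

theorem du : SDu := by
  intro lam g n hn h1
  have hd : dl lam n g = lam ∨ dl lam n g = -lam := by
    obtain ⟨k, rfl⟩ := Nat.exists_eq_add_of_le hn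
    have h := surf lam g k
    rw [show 1 + k = k + 1 by ring] at h1 ⊢
    rw [h1] at h
    have h2 : (dl lam (k + 1) g - lam) * (dl lam (k + 1) g + lam) = 0 := by
      unfold dl
      rw [show k + 1 - 1 = k by omega, show k + 1 + 1 = k + 2 by ring]
      linear_combination 4 * h
    rcases mul_eq_zero.1 h2 with h3 | h3
    · left; linarith
    · right; linarith
  refine ⟨hd, dual_tr lam g n hn h1, ?_⟩
  intro hlam k m hm hkm
  have hl : dl lam n g ≠ 0 := by
    rcases hd with h | h
    · rw [h]; exact hlam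
    · rw [h]; exact neg_ne_zero.2 hlam
  obtain ⟨j, rfl⟩ := Nat.exists_eq_add_of_le hm
  obtain ⟨i1, i2, -⟩ := dual_dE lam g n hn h1 hl j k (by omega)
  rw [show 2 + j - 1 = j + 1 by omega, show 2 + j - 2 = j by omega, show 2 + j = j + 2 by ring]
  exact ⟨i1, i2⟩

end Pool.Agent.W237.FM
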