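import Pool.Agent.W745.Fib.Stm

/-!
FM-M (helper237), project FM (helper745): monotonicity of the sums over the band edges.
-/

set_option autoImplicit false

open Set Filter Topology
open scoped ENNReal NNReal

namespace Pool.Agent.W237.FM

open Pool.Agent.W745.Fib Pool.Agent.W811.Stu

/-- chain rule for a function of two variables with given partial derivatives -/
theorem chain2 {G : ℝ × ℝ → ℝ} {e : ℝ → ℝ} {l gl gE e' : ℝ} (hG : DifferentiableAt ℝ G (l, e l))
    (h1 : HasDerivAt (fun m => G (m, e l)) gl l) (h2 : HasDerivAt (fun x => G (l, x)) gE (e l))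
    (he : HasDerivAt e e' l) : HasDerivAt (fun m => G (m, e m)) (gl + gE * e') l := by
  have hf := hG.hasFDerivAt
  have a1 : HasDerivAt (fun m : ℝ => ((m, e l) : ℝ × ℝ)) (1, 0) l :=
    (hasDerivAt_id l).prodMk (hasDerivAt_const l (e l))
  have a2 : HasDerivAt (fun x : ℝ => ((l, x) : ℝ × ℝ)) (0, 1) (e l) :=
    (hasDerivAt_const (e l) l).prodMk (hasDerivAt_id (e l))
  have a3 : HasDerivAt (fun m : ℝ => ((m, e m) : ℝ × ℝ)) (1, e') l :=
    (hasDerivAt_id l).prodMk he
  have b1 : HasDerivAt (fun m => G (m, e l)) (fderiv ℝ G (l, e l) (1, 0)) l :=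
    HasFDerivAt.comp_hasDerivAt (f := fun m : ℝ => ((m, e l) : ℝ × ℝ)) l hf a1
  have b2 : HasDerivAt (fun x => G (l, x)) (fderiv ℝ G (l, e l) (0, 1)) (e l) :=
    HasFDerivAt.comp_hasDerivAt (f := fun x : ℝ => ((l, x) : ℝ × ℝ)) (e l) hf a2
  have b3 : HasDerivAt (fun m => G (m, e m)) (fderiv ℝ G (l, e l) (1, e')) l :=
    HasFDerivAt.comp_hasDerivAt (f := fun m : ℝ => ((m, e m) : ℝ × ℝ)) l hf a3
  have c1 := b1.unique h1
  have c2 := b2.unique h2
  have c3 : fderiv ℝ G (l, e l) (1, e') = gl + gE * e' := by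
    have : ((1, e') : ℝ × ℝ) = (1, 0) + e' • ((0, 1) : ℝ × ℝ) := by
      ext <;> simp
    rw [this, map_add, map_smul, c1, c2, smul_eq_mul]
    ring
  rw [← c3]
  exact b3

theorem mo (hC : SC) (hZ : SZ) (hR : SRo) : SM := by
  intro s hs n hn a b ha hab
  have hF : ContDiff ℝ 1 (fun p : ℝ × ℝ => tr p.1 n p.2 - 1) :=
    ((contDiff_tr n).of_le le_top).sub contDiff_const
  have hset : ∀ l : ℝ, {E : ℝ | (fun p : ℝ × ℝ => tr p.1 n p.2 - 1) (l, E) = 0} =
      {E : ℝ | tr l n E = 1} := by
    intro l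
    ext E
    simp only [mem_setOf_eq, sub_eq_zero]
  have hdE : ∀ l : ℝ, 0 < l → ∀ E, tr l n E = 1 → dE l n E ≠ 0 := by
    intro l hl E hE
    apply (hZ l hl.ne' n hn).1
    rw [hE, abs_one]
    exact one_lt_cc (by positivity)
  obtain ⟨e, he1, he2⟩ := hR (fun p : ℝ × ℝ => tr p.1 n p.2 - 1) (fun l E => dE l n E)
    (fun l E => dL l n E) hF (fun l E => (hasDeriv_tr l n E).sub_const 1)
    (fun l E => (hasDeriv_tr_lam l n E).sub_const 1) (Nat.fib n) (by
      intro l hl
      rw [hset]
      have h1 := (hZ l hl.ne' n hn).2.1 1 (by rw [abs_one]; exact one_lt_cc (by positivity))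
      refine ⟨h1.1, h1.2, fun E hE => ?_⟩
      exact hdE l hl E (sub_eq_zero.1 hE))
  simp only [hset] at he1
  have hez : ∀ l : ℝ, 0 < l → ∀ i, tr l n (e i l) = 1 := by
    intro l hl i
    have : e i l ∈ {E : ℝ | tr l n E = 1} := by
      rw [(he1 l hl).2]
      exact ⟨i, rfl⟩
    exact this
  -- derivative of the derivative along the curve
  have hD : ∀ i, ∀ l : ℝ, 0 < l → HasDerivAt (fun l => dE l n (e i l))
      (dLE l n (e i l) + dEE l n (e i l) * (-(dL l n (e i l)) / dE l n (e i l))) l := by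
    intro i l hl
    exact chain2 (G := fun p : ℝ × ℝ => dE p.1 n p.2)
      ((contDiff_dE n).differentiable (by norm_num) _)
      (hasDeriv_dE_lam l n (e i l)) (hasDeriv_dE l n (e i l)) (he2 i l hl)
  have hmono : ∀ i, |dE a n (e i a)| ≤ |dE b n (e i b)| := by
    intro i
    have h1 : MonotoneOn (fun l => (dE l n (e i l)) ^ 2) (Ioi (0 : ℝ)) := by
      have hd : ∀ l : ℝ, 0 < l → HasDerivAt (fun l => (dE l n (e i l)) ^ 2)
          (2 * (dLE l n (e i l) * dE l n (e i l) - dL l n (e i l) * dEE l n (e i l))) l := by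
        intro l hl
        have h2 := (hD i l hl).pow 2
        refine h2.congr_deriv ?_
        have h3 := hdE l hl _ (hez l hl i)
        field_simp
        ring
      apply monotoneOn_of_deriv_nonneg (convex_Ioi 0)
      · intro l hl
        exact (hd l hl).continuousAt.continuousWithinAt
      · rw [interior_Ioi]
        intro l hl
        exact (hd l hl).differentiableAt.differentiableWithinAt
      · rw [interior_Ioi]
        intro l hl
        rw [(hd l hl).deriv]
        have := hC l hl n hn (e i l)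
        linarith
    have h2 := h1 (mem_Ioi.2 ha) (mem_Ioi.2 (ha.trans_le hab)) hab
    exact sq_le_sq.1 h2
  have hQ : ∀ l : ℝ, 0 < l → Q s n l =
      ∑' i : Fin (Nat.fib n), ENNReal.ofReal (|dE l n (e i l)| ^ (-s)) := by
    intro l hl
    have hbij : Function.Bijective
        (fun i : Fin (Nat.fib n) => (⟨e i l, hez l hl i⟩ : {E : ℝ // tr l n E = 1})) := by
      constructor
      · intro i j hij
        exact (he1 l hl).1 (congrArg Subtype.val hij)
      · rintro ⟨E, hE⟩
        have h1 : E ∈ {E : ℝ | tr l n E = 1} := hE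
        rw [(he1 l hl).2] at h1
        obtain ⟨i, hi⟩ := h1
        exact ⟨i, Subtype.ext hi⟩
    unfold Q
    rw [← (Equiv.ofBijective _ hbij).tsum_eq]
    rfl
  rw [hQ a ha, hQ b (ha.trans_le hab)]
  refine ENNReal.tsum_le_tsum (fun i => ?_)
  apply ENNReal.ofReal_le_ofReal
  have h1 : 0 < |dE a n (e i a)| := abs_pos.2 (hdE a ha _ (hez a ha i))
  exact Real.rpow_le_rpow_of_nonpos h1 (hmono i) (by linarith)

end Pool.Agent.W237.FM
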