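import Pool.Agent.W745.Fib.Stm

/-!
FM-RO (helper237), project FM (helper745): parametrisation of simple zeros by a parameter.
-/

set_option autoImplicit false

open Set Filter Topology

namespace Pool.Agent.W237.FM

open Pool.Agent.W745.Fib

/-- sign change at a simple zero -/
theorem sign_change {f : ℝ → ℝ} {f' z : ℝ} (hf : HasDerivAt f f' z) (h0 : f z = 0) (hf' : f' ≠ 0)
    {η : ℝ} (hη : 0 < η) : ∃ p q : ℝ, z - η < p ∧ p < z ∧ z < q ∧ q < z + η ∧ f p * f q < 0 := by
  have h1 := hasDerivAt_iff_tendsto_slope.1 hf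
  have h2 : Tendsto (fun x => f' * slope f z x) (𝓝[≠] z) (𝓝 (f' * f')) := h1.const_mul f'
  have h3 : ∀ᶠ x in 𝓝[≠] z, 0 < f' * slope f z x :=
    h2.eventually (lt_mem_nhds (mul_self_pos.2 hf'))
  have h4 : ∀ᶠ x in 𝓝[<] z, 0 < f' * slope f z x :=
    h3.filter_mono (nhdsWithin_mono z (fun x hx => ne_of_lt hx))
  have h5 : ∀ᶠ x in 𝓝[>] z, 0 < f' * slope f z x :=
    h3.filter_mono (nhdsWithin_mono z (fun x hx => ne_of_gt hx))
  obtain ⟨p, hp1, hp2⟩ := (h4.and (Ioo_mem_nhdsLT (show z - η < z by linarith))).exists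
  obtain ⟨q, hq1, hq2⟩ := (h5.and (Ioo_mem_nhdsGT (show z < z + η by linarith))).exists
  refine ⟨p, q, hp2.1, hp2.2, hq2.1, hq2.2, ?_⟩
  rw [slope_def_field, h0, sub_zero] at hp1 hq1
  have hpz : p - z < 0 := by linarith [hp2.2]
  have hqz : 0 < q - z := by linarith [hq2.1]
  have e1 : f' * f p < 0 := by
    have e : f' * f p = (f' * (f p / (p - z))) * (p - z) := by
      have : p - z ≠ 0 := hpz.ne
      field_simp
    rw [e]
    exact mul_neg_of_pos_of_neg hp1 hpz
  have e2 : 0 < f' * f q := by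
    have e : f' * f q = (f' * (f q / (q - z))) * (q - z) := by
      have : q - z ≠ 0 := hqz.ne'
      field_simp
    rw [e]
    exact mul_pos hq1 hqz
  have e3 : (f' * f') * (f p * f q) < 0 := by
    have : (f' * f') * (f p * f q) = (f' * f p) * (f' * f q) := by ring
    rw [this]
    exact mul_neg_of_neg_of_pos e1 e2
  have e4 : 0 < f' * f' := mul_self_pos.2 hf'
  by_contra hcon
  push Not at hcon
  have := mul_nonneg e4.le hcon
  linarith

/-- a zero between points of opposite sign -/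
theorem exists_zero {f : ℝ → ℝ} (hf : Continuous f) {p q : ℝ} (hpq : p < q) (h : f p * f q < 0) :
    ∃ w, p < w ∧ w < q ∧ f w = 0 := by
  rcases mul_neg_iff.1 h with ⟨h1, h2⟩ | ⟨h1, h2⟩
  · obtain ⟨w, hw, hw0⟩ := intermediate_value_Ioo' hpq.le hf.continuousOn
      (show (0 : ℝ) ∈ Ioo (f q) (f p) from ⟨h2, h1⟩)
    exact ⟨w, hw.1, hw.2, hw0⟩
  · obtain ⟨w, hw, hw0⟩ := intermediate_value_Ioo hpq.le hf.continuousOn
      (show (0 : ℝ) ∈ Ioo (f p) (f q) from ⟨h1, h2⟩)
    exact ⟨w, hw.1, hw.2, hw0⟩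

theorem ro : SRo := by
  intro F a b hF ha hb N hZ
  have hFc : Continuous F := hF.continuous
  have hcard : ∀ l : ℝ, ∀ h : 0 < l, (hZ l h).1.toFinset.card = N := by
    intro l h
    rw [← Set.ncard_eq_toFinset_card _ (hZ l h).1]
    exact (hZ l h).2.1
  let e : Fin N → ℝ → ℝ := fun i l =>
    if h : 0 < l then (hZ l h).1.toFinset.orderEmbOfFin (hcard l h) i else 0
  have he : ∀ l : ℝ, ∀ h : 0 < l, (fun i => e i l) =
      (hZ l h).1.toFinset.orderEmbOfFin (hcard l h) := by
    intro l h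
    funext i
    simp only [e, h, dif_pos]
  have hzero : ∀ l : ℝ, 0 < l → ∀ i, F (l, e i l) = 0 := by
    intro l h i
    have h1 := Finset.orderEmbOfFin_mem (hZ l h).1.toFinset (hcard l h) i
    rw [← he l h] at h1
    simpa using h1
  have hmono : ∀ l : ℝ, 0 < l → StrictMono (fun i => e i l) := by
    intro l h
    rw [he l h]
    exact (Finset.orderEmbOfFin _ (hcard l h)).strictMono
  -- continuity
  have hcont : ∀ l0 : ℝ, 0 < l0 → ∀ i, Tendsto (e i) (𝓝 l0) (𝓝 (e i l0)) := by
    intro l0 hl0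
    suffices H : ∀ η : ℝ, 0 < η → ∀ᶠ l in 𝓝 l0, ∀ i, |e i l - e i l0| < η by
      intro i
      rw [Metric.tendsto_nhds]
      intro η hη
      filter_upwards [H η hη] with l hl
      rw [Real.dist_eq]
      exact hl i
    intro η hη
    -- a small gap
    have hgap : ∀ᶠ d in 𝓝[>] (0 : ℝ), ∀ i j : Fin N, i < j → e i l0 + d < e j l0 - d := by
      rw [eventually_all]
      intro i
      rw [eventually_all]
      intro j
      by_cases hij : i < j
      · have h1 : e i l0 < e j l0 := hmono l0 hl0 hij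
        have h2 : ∀ᶠ d in 𝓝[>] (0 : ℝ), d < (e j l0 - e i l0) / 2 :=
          nhdsWithin_le_nhds (gt_mem_nhds (by linarith))
        filter_upwards [h2] with d hd _
        linarith
      · exact Eventually.of_forall (fun d h => absurd h hij)
    obtain ⟨d, hd1, hd2⟩ := (hgap.and (Ioo_mem_nhdsGT hη)).exists
    have hsc : ∀ i : Fin N, ∃ p q : ℝ, e i l0 - d < p ∧ p < e i l0 ∧ e i l0 < q ∧
        q < e i l0 + d ∧ F (l0, p) * F (l0, q) < 0 := by
      intro i
      exact sign_change (ha l0 (e i l0)) (hzero l0 hl0 i)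
        ((hZ l0 hl0).2.2 _ (hzero l0 hl0 i)) hd2.1
    choose p q hp1 hp2 hq1 hq2 hpq using hsc
    have hev : ∀ᶠ l in 𝓝 l0, ∀ i : Fin N, F (l, p i) * F (l, q i) < 0 := by
      rw [eventually_all]
      intro i
      have hc : Continuous (fun l : ℝ => F (l, p i) * F (l, q i)) := by fun_prop
      exact hc.continuousAt.eventually (gt_mem_nhds (hpq i))
    filter_upwards [hev, lt_mem_nhds hl0] with l hl hlpos
    have hw : ∀ i : Fin N, ∃ w, p i < w ∧ w < q i ∧ F (l, w) = 0 := by
      intro i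
      have hc : Continuous (fun x : ℝ => F (l, x)) := by fun_prop
      exact exists_zero hc ((hp2 i).trans (hq1 i)) (hl i)
    choose w hw1 hw2 hw3 using hw
    have hwm : StrictMono w := by
      intro i j hij
      have h1 := hd1 i j hij
      linarith [hw2 i, hq2 i, hp1 j, hw1 j]
    have hweq := Finset.orderEmbOfFin_unique (hcard l hlpos) (f := w)
      (fun i => by simpa using hw3 i) hwm
    intro i
    have hei : e i l = w i := by
      have h1 := congrFun (he l hlpos) i
      rw [← hweq] at h1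
      exact h1
    rw [hei, abs_lt]
    constructor <;> linarith [hw1 i, hw2 i, hp1 i, hq2 i, hd2.2]
  -- continuity of the partial derivative
  have hac : Continuous (fun x : ℝ × ℝ => a x.1 x.2) := by
    have h1 : (fun x : ℝ × ℝ => a x.1 x.2) = fun x : ℝ × ℝ => fderiv ℝ F x (0, 1) := by
      funext x
      have h2 : HasFDerivAt F (fderiv ℝ F x) x :=
        (hF.differentiable (by norm_num) x).hasFDerivAt
      have h3 : HasDerivAt (fun e : ℝ => ((x.1, e) : ℝ × ℝ)) (0, 1) x.2 :=
        (hasDerivAt_const x.2 x.1).prodMk (hasDerivAt_id x.2)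
      have h4 : HasDerivAt (fun e : ℝ => F (x.1, e)) (fderiv ℝ F x (0, 1)) x.2 :=
        HasFDerivAt.comp_hasDerivAt (f := fun e : ℝ => ((x.1, e) : ℝ × ℝ)) x.2 h2 h3
      exact (ha x.1 x.2).unique h4
    rw [h1]
    exact (hF.continuous_fderiv (by norm_num)).clm_apply continuous_const
  refine ⟨e, fun l hl => ⟨(hmono l hl).injective, ?_⟩, ?_⟩
  · ext x
    constructor
    · intro hx
      have h1 : x ∈ (hZ l hl).1.toFinset := by simpa using hx
      have h2 := Finset.range_orderEmbOfFin (hZ l hl).1.toFinset (hcard l hl)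
      rw [he l hl, h2]
      exact h1
    · rintro ⟨i, rfl⟩
      exact hzero l hl i
  · intro i l0 hl0
    set z := e i l0 with hz
    have hzz : F (l0, z) = 0 := hzero l0 hl0 i
    have hane : a l0 z ≠ 0 := (hZ l0 hl0).2.2 z hzz
    -- mean value points
    have hmv : ∀ l : ℝ, ∃ ξ, |ξ - z| ≤ |e i l - z| ∧
        F (l, e i l) - F (l, z) = a l ξ * (e i l - z) := by
      intro l
      rcases lt_trichotomy (e i l) z with h | h | h
      · obtain ⟨ξ, hξ, hs⟩ := exists_hasDerivAt_eq_slope (fun x => F (l, x)) (a l) h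
          (by fun_prop) (fun x _ => ha l x)
        refine ⟨ξ, ?_, ?_⟩
        · rw [abs_of_neg (by linarith [hξ.2]), abs_of_neg (by linarith)]
          linarith [hξ.1]
        · have h1 : z - e i l ≠ 0 := by linarith
          rw [eq_div_iff h1] at hs
          linarith
      · exact ⟨z, by simp, by rw [h]; ring⟩
      · obtain ⟨ξ, hξ, hs⟩ := exists_hasDerivAt_eq_slope (fun x => F (l, x)) (a l) h
          (by fun_prop) (fun x _ => ha l x)
        refine ⟨ξ, ?_, ?_⟩
        · rw [abs_of_pos (by linarith [hξ.1]), abs_of_pos (by linarith)]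
          linarith [hξ.2]
        · have h1 : e i l - z ≠ 0 := by linarith
          rw [eq_div_iff h1] at hs
          linarith
    choose ξ hξ1 hξ2 using hmv
    have hξt : Tendsto ξ (𝓝 l0) (𝓝 z) := by
      rw [Metric.tendsto_nhds]
      intro η hη
      have h1 := (Metric.tendsto_nhds.1 (hcont l0 hl0 i)) η hη
      filter_upwards [h1] with l hl
      rw [Real.dist_eq] at hl ⊢
      exact (hξ1 l).trans_lt hl
    have hat : Tendsto (fun l => a l (ξ l)) (𝓝 l0) (𝓝 (a l0 z)) := by
      have h1 : Tendsto (fun l => ((l, ξ l) : ℝ × ℝ)) (𝓝 l0) (𝓝 (l0, z)) :=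
        tendsto_id.prodMk_nhds hξt
      exact (hac.tendsto (l0, z)).comp h1
    rw [hasDerivAt_iff_tendsto_slope]
    have hbs := hasDerivAt_iff_tendsto_slope.1 (hb l0 z)
    have h2 : Tendsto (fun l => -(slope (fun m => F (m, z)) l0 l) / a l (ξ l)) (𝓝[≠] l0)
        (𝓝 (-(b l0 z) / a l0 z)) :=
      hbs.neg.div (hat.mono_left nhdsWithin_le_nhds) hane
    refine h2.congr' ?_
    have h3 : ∀ᶠ l in 𝓝[≠] l0, a l (ξ l) ≠ 0 :=
      (hat.mono_left nhdsWithin_le_nhds).eventually_ne hane
    have h4 : ∀ᶠ l in 𝓝[≠] l0, 0 < l := nhdsWithin_le_nhds (lt_mem_nhds hl0)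
    filter_upwards [h3, h4, self_mem_nhdsWithin] with l hl1 hl2 hl3
    have hl4 : l - l0 ≠ 0 := sub_ne_zero.2 hl3
    rw [slope_def_field, slope_def_field, hzz, sub_zero]
    have h5 := hξ2 l
    rw [hzero l hl2 i, zero_sub] at h5
    rw [← hz]
    field_simp
    linarith

end Pool.Agent.W237.FM
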